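import Pool.Agent.P.MP_97162c_an.K.Final

open MeasureTheory

/-- For all `n ≥ 5` and `k ≥ 1` some pseudoconvex domain in complex `n`-space has a Bergman space
of dimension exactly `k`. -/
theorem Pool.Agent.Results.MP_97162c_an.ExactDim.result (n k : ℕ) (hn : 5 ≤ n) (hk : 1 ≤ k) :
    ∃ Ω : Set (Fin n → ℂ), IsOpen Ω ∧ IsConnected Ω ∧
      (∃ φ : (Fin n → ℂ) → ℝ, ContinuousOn φ Ω ∧
        (∀ c : ℝ, IsCompact {z | z ∈ Ω ∧ φ z ≤ c}) ∧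
        ∀ a b : Fin n → ℂ, (∀ ζ : ℂ, ‖ζ‖ ≤ 1 → a + ζ • b ∈ Ω) →
          φ a ≤ (1 / (2 * Real.pi)) *
            ∫ θ in (0:ℝ)..(2 * Real.pi), φ (a + Complex.exp ((θ : ℂ) * Complex.I) • b)) ∧
      ∃ g : Fin k → (Fin n → ℂ) → ℂ,
        (∀ i, DifferentiableOn ℂ (g i) Ω ∧ MemLp (g i) 2 (volume.restrict Ω)) ∧
        (∀ c : Fin k → ℂ, (∀ z ∈ Ω, ∑ i, c i * g i z = 0) → c = 0) ∧
        ∀ f : (Fin n → ℂ) → ℂ, DifferentiableOn ℂ f Ω → MemLp f 2 (volume.restrict Ω) →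
          ∃ c : Fin k → ℂ, ∀ z ∈ Ω, f z = ∑ i, c i * g i z :=
  Pool.Agent.P.MP_97162c_an.K.main n k hn hk
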